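import Mathlib
import Pool.Agent.H.MP_4fee6f_ag.G

set_option autoImplicit false

namespace Pool.Agent.Results.MP_cc5cd7_ag.CharZero

universe u

/-- The homogeneous ideal `I(P)` of a point of projective `N`-space over `K`: the ideal
generated by all forms vanishing at `P`. -/
noncomputable def ptIdeal {K : Type u} [Field K] {N : ℕ} (P : Projectivization K (Fin (N + 1) → K)) :
    Ideal (MvPolynomial (Fin (N + 1)) K) :=
  Ideal.span {g : MvPolynomial (Fin (N + 1)) K |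
    (∃ d : ℕ, g.IsHomogeneous d) ∧ MvPolynomial.eval P.rep g = 0}

/-- The irrelevant ideal, generated by all the variables. -/
noncomputable def irr (K : Type u) [Field K] (N : ℕ) : Ideal (MvPolynomial (Fin (N + 1)) K) :=
  Ideal.span (Set.range (fun i : Fin (N + 1) => (MvPolynomial.X i : MvPolynomial (Fin (N + 1)) K)))

/-- The ideal `I(mZ)` for the fat point scheme `Z = μ 0 • P 0 + ... + μ (s-1) • P (s-1)`. -/
noncomputable def fatIdeal {K : Type u} [Field K] {N s : ℕ}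
    (P : Fin s → Projectivization K (Fin (N + 1) → K)) (μ : Fin s → ℕ) (m : ℕ) :
    Ideal (MvPolynomial (Fin (N + 1)) K) :=
  ⨅ i, ptIdeal (P i) ^ (m * μ i)

lemma fat_eq {K : Type u} [Field K] {N s : ℕ}
    (P : Fin s → Projectivization K (Fin (N + 1) → K)) (μ : Fin s → ℕ) (m : ℕ) :
    fatIdeal P μ m = ⨅ i, RingHom.ker (Pool.Agent.H.MP_4fee6f_ag.ev (P i).rep) ^ (m * μ i) := by
  unfold fatIdeal ptIdeal
  refine iInf_congr fun i => ?_
  rw [Pool.Agent.H.MP_4fee6f_ag.span_forms (P i).rep (P i).rep_nonzero]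

theorem result :
    ∀ (K : Type u) [Field K] [CharZero K] (N : ℕ), 2 ≤ N →
    ∀ (s : ℕ) (P : Fin s → Projectivization K (Fin (N + 1) → K)), Function.Injective P →
    ∀ (μ : Fin s → ℕ), (∃ i, μ i ≠ 0) →
    ∀ r m : ℕ, 1 ≤ r → 1 ≤ m →
      fatIdeal P μ (r * (m + N - 1)) ≤ irr K N ^ r * fatIdeal P μ m ^ r := by
  intro K _ _ N hN s P _ μ hμ r m hr hm
  rw [fat_eq, fat_eq]
  obtain ⟨i0, hi0⟩ := hμ
  refine Pool.Agent.H.MP_4fee6f_ag.containment N hN (fun i => (P i).rep)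
    (fun i => (P i).rep_nonzero) (fun i => m * μ i) _
    ⟨i0, Nat.mul_ne_zero (by omega) hi0⟩ r hr fun i hi => ?_
  have h1 : 1 ≤ μ i := Nat.pos_of_ne_zero fun h => hi (by simp [h])
  obtain ⟨M, rfl⟩ : ∃ M, N = M + 1 := ⟨N - 1, by omega⟩
  rw [mul_assoc]
  refine Nat.mul_le_mul_left _ ?_
  have h2 : M * 1 ≤ M * μ i := Nat.mul_le_mul_left _ h1
  have h3 : (m + (M + 1) - 1) * μ i = m * μ i + M * μ i := by
    rw [← add_mul]
    rfl
  omega

end Pool.Agent.Results.MP_cc5cd7_ag.CharZero
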